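import Pool.Agent.TH254.FP.Main

set_option autoImplicit false

open Filter Topology Finset

namespace Pool.Agent.Results.MP_7a8f48_an.FreeProducts

/-- The Möbius sum `∑_{n ≤ N} μ(n) zⁿ fⁿ(x)` of the orbit of `x`, twisted by the powers of `z`. -/
noncomputable def moebiusSum {A : Type} [CStarAlgebra A] (f : A → A) (x : A) (N : ℕ) (z : ℂ) : A :=
  ∑ n ∈ Icc 1 N, (((ArithmeticFunction.moebius n : ℤ) : ℂ) * z ^ n) • f^[n] x

/-- The Möbius sums of `x` are `o(N)` in norm, uniformly over all rotations. -/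
def Disj {A : Type} [CStarAlgebra A] (f : A → A) (x : A) : Prop :=
  ∀ ε : ℝ, 0 < ε → ∃ N₀ : ℕ, ∀ N ≥ N₀, ∀ z : ℂ, ‖z‖ = 1 → ‖moebiusSum f x N z‖ ≤ ε * N

/-- `x` is an eigenvector of a power of `f`. -/
def PowerEigen {A : Type} [CStarAlgebra A] (f : A → A) (x : A) : Prop :=
  ∃ q : ℕ, 0 < q ∧ ∃ c : ℂ, f^[q] x = c • x

/-- `(A, φ)` is the reduced free product of its subalgebras `S i`, with the restrictions of the
state `φ`: the `S i` generate `A`, the GNS representation of `φ` is faithful, and `φ` vanishes at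
each product of elements of kernel of `φ` from the `S i`, if adjacent factors are taken from
different subalgebras. -/
structure ReducedFreeProduct {A ι : Type} [CStarAlgebra A] (φ : A →ₗ[ℂ] ℂ)
    (S : ι → StarSubalgebra ℂ A) : Prop where
  one : φ 1 = 1
  pos : ∀ a : A, ∃ r : ℝ, 0 ≤ r ∧ φ (star a * a) = r
  faithful : ∀ a : A, (∀ b : A, φ (star (a * b) * (a * b)) = 0) → a = 0
  free : ∀ l : List (ι × A), l ≠ [] → (∀ p ∈ l, p.2 ∈ S p.1 ∧ φ p.2 = 0) →
    l.IsChain (fun p q => p.1 ≠ q.1) → φ (l.map Prod.snd).prod = 0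
  gen : (StarAlgebra.adjoin ℂ (⋃ i, (S i : Set A))).topologicalClosure = ⊤

open Pool.Agent.TH254.FP

/-- **Möbius disjointness passes to reduced free products.**

Let `(A, φ)` be the reduced free product of subalgebras `S i`, `i ∈ ι`, and let `α` be an
automorphism of `A` which preserves `φ` and permutes the `S i` according to a permutation `σ` of
`ι`. Assume that, for each `i` in a finite cycle of `σ`, the algebra `S i` is contained in the closed
span of the elements whose Möbius sums are `o(N)` in norm, uniformly over all rotations, and of the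
eigenvectors of powers of `α`. Then the Möbius sums of each element of `A` are `o(N)` in norm,
uniformly over all rotations; and this holds also for each element of each system `(B, β)` which is
generated by an equivariant image of `A` and eigenvectors of `β`, and of each system `(W, γ)` which
embeds in such a `(B, β)`. In particular `(1/N) ∑ μ(n) ρ(γⁿ u) → 0` for all bounded functionals
`ρ`. -/
theorem result (A ι : Type) [CStarAlgebra A] (φ : A →ₗ[ℂ] ℂ) (S : ι → StarSubalgebra ℂ A)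
    (hA : ReducedFreeProduct φ S) (α : A ≃⋆ₐ[ℂ] A) (hφ : ∀ a, φ (α a) = φ a) (σ : Equiv.Perm ι)
    (hσ : ∀ i a, α a ∈ S (σ i) ↔ a ∈ S i)
    (hper : ∀ i, (∃ m : ℕ, 0 < m ∧ (σ ^ m) i = i) →
      (S i : Set A) ⊆ closure (Submodule.span ℂ {x : A | Disj α x ∨ PowerEigen α x} : Set A))
    (B : Type) [CStarAlgebra B] (β : B →⋆ₐ[ℂ] B) (g : A →⋆ₐ[ℂ] B) (hg : ∀ a, β (g a) = g (α a))
    (hgen : (Submodule.span ℂ {x : B | ∃ a w, ∃ c : ℂ, ‖c‖ = 1 ∧ β w = c • w ∧
      x = g a * w}).topologicalClosure = ⊤)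
    (W : Type) [CStarAlgebra W] (γ : W →⋆ₐ[ℂ] W) (κ : W →⋆ₐ[ℂ] B) (hκ : Function.Injective κ)
    (hγ : ∀ w, κ (γ w) = β (κ w)) (u : W) :
    Disj γ u ∧ ∀ ρ : W →L[ℂ] ℂ, Tendsto (fun N : ℕ => (1 / (N : ℂ)) * ∑ n ∈ Icc 1 N,
      ((ArithmeticFunction.moebius n : ℤ) : ℂ) * ρ (γ^[n] u)) atTop (𝓝 0) := by
  have hF : Free φ S := fun l hl h => hA.free l hl (fun p hp => ⟨h.mem p hp, h.cen p hp⟩) h.alt
  have hP : Perm φ S σ α := ⟨hφ, hσ⟩
  have h1 : ∀ a, UD α a := main_ud hA.one hA.pos hA.faithful hF hA.gen hP hper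
  have h2 : UD γ u := ud_embed hκ hγ (ud_ext hg hgen h1 (κ u))
  exact ⟨h2, fun ρ => ud_functional h2 ρ⟩

end Pool.Agent.Results.MP_7a8f48_an.FreeProducts
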