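import Pool.Agent.TH327.Dim.CstH

/-! Möbius disjointness in norm for automorphisms of C*-algebras with spectra of small dimension. -/

set_option autoImplicit false

open Filter Topology Finset

namespace Pool.Agent.Results.MP_7a8f48_an.HalfDimension

universe u v

/-- `K ⊆ ℝ/ℤ` is covered for each `n ≥ 1` by at most `C n ^ s` arcs of radius `1 / n` -/
def Covered (K : Set UnitAddCircle) (C s : ℝ) : Prop :=
  ∀ n : ℕ, 1 ≤ n → ∃ S : Finset UnitAddCircle, (S.card : ℝ) ≤ C * (n : ℝ) ^ s ∧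
    ∀ x ∈ K, ∃ y ∈ S, ‖x - y‖ ≤ 1 / n

/-- upper box dimension less than one half -/
def BelowHalf (K : Set UnitAddCircle) : Prop := ∃ C s : ℝ, s < 1 / 2 ∧ Covered K C s

/-- upper box dimension zero -/
def DimensionZero (K : Set UnitAddCircle) : Prop := ∀ s : ℝ, 0 < s → ∃ C : ℝ, Covered K C s

/-- The sequence `a` has its spectrum in `K`: it is annihilated by each absolutely summable
`f : ℤ → ℂ` whose Fourier series `∑ f n exp (2 π i n η)` vanishes for all `η` in an open set
which contains `K` (`fourier n η` is `exp (2 π i n η)`). -/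
def SpectrumIn {E : Type*} [NormedAddCommGroup E] [NormedSpace ℂ E] (K : Set UnitAddCircle)
    (a : ℤ → E) : Prop :=
  ∀ f : ℤ → ℂ, Summable (fun n => ‖f n‖) →
    (∃ U : Set UnitAddCircle, IsOpen U ∧ K ⊆ U ∧ ∀ η ∈ U, ∑' n, f n * fourier n η = 0) →
    ∑' n, f n • a n = 0

/-- The element `x` has its Arveson spectrum with respect to the automorphism `α` in `K`. -/
def ArvesonIn {A : Type u} [NonUnitalCStarAlgebra A] (α : A ≃⋆ₐ[ℂ] A) (K : Set UnitAddCircle) (x : A) : Prop :=
  SpectrumIn K (fun n : ℤ => (α ^ n) x)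

/-- the elements with Arveson spectrum in a set of upper box dimension less than one half -/
def Small {A : Type u} [NonUnitalCStarAlgebra A] (α : A ≃⋆ₐ[ℂ] A) : Set A :=
  {x | ∃ K, BelowHalf K ∧ ArvesonIn α K x}

/-- the elements with Arveson spectrum in a set of upper box dimension zero -/
def Tiny {A : Type u} [NonUnitalCStarAlgebra A] (α : A ≃⋆ₐ[ℂ] A) : Set A :=
  {x | ∃ K, DimensionZero K ∧ ArvesonIn α K x}

/-- the sum of `h m e(mθ) αᵐ(x)` over the `m` in `S` -/
noncomputable def twistedSum {A : Type u} [NonUnitalCStarAlgebra A] (α : A ≃⋆ₐ[ℂ] A) (h : ℕ → ℤ) (θ : ℝ)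
    (S : Finset ℕ) (x : A) : A :=
  ∑ m ∈ S, ((h m : ℂ) * Complex.exp (2 * Real.pi * Complex.I * m * θ)) • (α ^ m) x

/-- the Möbius function -/
def mu (n : ℕ) : ℤ := ArithmeticFunction.moebius n

/-- the Liouville function -/
def lam (n : ℕ) : ℤ := (-1) ^ ArithmeticFunction.cardFactors n

/-- The orbit of `x` is disjoint from `h` in norm, uniformly in the twist by `e(mθ)`: on the average
over the windows of length `H`, and for the long averages. -/
def NormDisjoint {A : Type u} [NonUnitalCStarAlgebra A] (α : A ≃⋆ₐ[ℂ] A) (x : A) (h : ℕ → ℤ) : Prop :=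
  ∀ ε : ℝ, 0 < ε →
    (∃ H0 : ℕ, ∀ H ≥ H0, ∀ N ≥ H, ∀ θ : ℝ,
      ∑ n ∈ range N, ‖twistedSum α h θ (Ioc n (n + H)) x‖ ≤ ε * H * N) ∧
    ∃ N0 : ℕ, ∀ N ≥ N0, ∀ θ : ℝ, ‖twistedSum α h θ (Icc 1 N) x‖ ≤ ε * N

/-- norm disjointness from the Möbius and the Liouville function -/
def Disjoint' {A : Type u} [NonUnitalCStarAlgebra A] (α : A ≃⋆ₐ[ℂ] A) (x : A) : Prop :=
  NormDisjoint α x mu ∧ NormDisjoint α x lam

/-- Möbius disjointness as in the problem, for all bounded functionals -/
def MobiusDisjoint {A : Type u} [NonUnitalCStarAlgebra A] (α : A ≃⋆ₐ[ℂ] A) : Prop :=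
  ∀ (x : A) (ρ : A →L[ℂ] ℂ), Tendsto (fun N : ℕ => (1 / (N : ℂ)) *
      ∑ n ∈ Icc 1 N, ((ArithmeticFunction.moebius n : ℤ) : ℂ) * ρ ((α ^ n) x)) atTop (𝓝 0)

/-- (A) The elements of spectral dimension zero form a *-algebra, those of spectral dimension less
than one half a bimodule over it, closed under the adjoint. Each element of the closure of the
bimodule is disjoint in norm. If the bimodule is dense, or if a set of elements of spectral dimension
zero generates the algebra, then `α` is Möbius disjoint and each element is disjoint in norm. -/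
def PartA {A : Type u} [NonUnitalCStarAlgebra A] (α : A ≃⋆ₐ[ℂ] A) : Prop :=
  (∃ Z : NonUnitalStarSubalgebra ℂ A, (Z : Set A) = Tiny α) ∧
  (∃ L : Submodule ℂ A, (L : Set A) = Small α ∧ Tiny α ⊆ Small α ∧
    (∀ x ∈ L, ∀ y ∈ Tiny α, x * y ∈ L ∧ y * x ∈ L) ∧ ∀ x ∈ L, star x ∈ L) ∧
  (∀ x ∈ closure (Small α), Disjoint' α x) ∧
  (Dense (Small α) → MobiusDisjoint α ∧ ∀ x, Disjoint' α x) ∧
  (∀ S ⊆ Tiny α, Dense ((NonUnitalStarAlgebra.adjoin ℂ S : NonUnitalStarSubalgebra ℂ A) : Set A) →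
    MobiusDisjoint α ∧ ∀ x, Disjoint' α x)

/-- uniformity of the long averages on the unit ball of the spectral subspace of `K` -/
def LongBound (K : Set UnitAddCircle) : Prop :=
  ∀ ε : ℝ, 0 < ε → ∃ N0 : ℕ, ∀ N ≥ N0, ∀ (A : Type u) [NonUnitalCStarAlgebra A] (α : A ≃⋆ₐ[ℂ] A) (x : A),
    ArvesonIn α K x → ∀ θ : ℝ, ‖twistedSum α mu θ (Icc 1 N) x‖ ≤ ε * N * ‖x‖

/-- the same on windows, for elements which change with the window -/
def WindowBound (K : Set UnitAddCircle) : Prop :=
  ∀ ε : ℝ, 0 < ε → ∃ H0 : ℕ, ∀ H ≥ H0, ∀ N ≥ H,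
    ∀ (A : Type u) [NonUnitalCStarAlgebra A] (α : A ≃⋆ₐ[ℂ] A) (x : ℕ → A),
      (∀ n, ArvesonIn α K (x n) ∧ ‖x n‖ ≤ 1) → ∀ θ : ℝ,
        ∑ n ∈ range N, ‖twistedSum α mu θ (Ioc n (n + H)) (x n)‖ ≤ ε * H * N

/-- the spectrum of the unitary `v` has upper box dimension less than one quarter -/
def BelowQuarter {B : Type v} [CStarAlgebra B] (v : unitary B) : Prop :=
  ∃ C s : ℝ, s < 1 / 4 ∧ Covered {θ : UnitAddCircle | (fourier 1 θ : ℂ) ∈ spectrum ℂ (v : B)} C s

/-- the averages of `μ(n) e(nθ) vⁿ x v⁻ⁿ` tend to zero in norm, uniformly for `x` in the unit ball of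
the algebra and in `θ` -/
def InnerBound {B : Type v} [CStarAlgebra B] (v : unitary B) : Prop :=
  ∀ ε : ℝ, 0 < ε → ∃ N0 : ℕ, ∀ N ≥ N0, ∀ (x : B) (θ : ℝ),
    ‖∑ n ∈ Icc 1 N, (((ArithmeticFunction.moebius n : ℤ) : ℂ) *
      Complex.exp (2 * Real.pi * Complex.I * n * θ)) • ((v : B) ^ n * x * star (v : B) ^ n)‖ ≤
    ε * N * ‖x‖

/-- each automorphism `α` of a C*-algebra which in some embedding is implemented by `v` is Möbius
disjoint, all elements are disjoint in norm and have spectral dimension less than one half -/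
def Implemented {B : Type v} [CStarAlgebra B] (v : unitary B) : Prop :=
  ∀ (A : Type u) [NonUnitalCStarAlgebra A] (α : A ≃⋆ₐ[ℂ] A) (ι : A →⋆ₙₐ[ℂ] B),
    Function.Injective ι → (∀ x, ι (α x) = (v : B) * ι x * star (v : B)) →
    Small α = Set.univ ∧ MobiusDisjoint α ∧ ∀ x, Disjoint' α x

open scoped Pointwise
open Pool.Agent.TH327.Dim
open Pool.Agent.TH327.Thin (SpecIn orb uspec norm_unitary_zpow norm_orb)

theorem exp_eq (n : ℕ) (θ : ℝ) : Complex.exp (2 * Real.pi * Complex.I * n * θ) =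
    fourier (n : ℤ) (θ : UnitAddCircle) := by
  rw [Pool.Agent.TH327.Thin.fourier_coe]
  simp

theorem nd_of_PW {A : Type u} [NonUnitalCStarAlgebra A] {α : A ≃⋆ₐ[ℂ] A} {x : A} {g : ℕ → ℂ} {h : ℕ → ℤ}
    (hgh : ∀ n, g n = (h n : ℂ)) (hg : ∀ n, ‖g n‖ ≤ 1)
    (hPW : PW {g} (slice {ρ : A →L[ℂ] ℂ // ‖ρ‖ ≤ 1}) (tw (evC α)) x) : NormDisjoint α x h := by
  intro ε hε
  obtain ⟨⟨H0, h1⟩, N0, h2⟩ := norm_of_PW hg hPW hε
  refine ⟨⟨H0, fun H hH N hN θ => ?_⟩, N0, fun N hN θ => ?_⟩
  · have := h1 H hH N hN (θ : UnitAddCircle)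
    unfold twistedSum
    simp_rw [exp_eq, ← hgh]
    exact this
  · have := h2 N hN (θ : UnitAddCircle)
    unfold twistedSum
    simp_rw [exp_eq, ← hgh]
    exact this

theorem nd_of_closure {A : Type u} [NonUnitalCStarAlgebra A] {α : A ≃⋆ₐ[ℂ] A} {x : A}
    (hx : x ∈ closure (Small α)) : Disjoint' α x := by
  obtain ⟨h1, h2⟩ := PW_el (α := α) hx
  refine ⟨nd_of_PW (g := muf) (fun n => rfl) muf_le h1, nd_of_PW (g := laf) (fun n => ?_) laf_le h2⟩
  unfold laf lam
  push_cast
  rfl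

theorem mob_of {A : Type u} [NonUnitalCStarAlgebra A] {α : A ≃⋆ₐ[ℂ] A} (h : ∀ x : A, Disjoint' α x) :
    MobiusDisjoint α := by
  intro x ρ
  rw [Metric.tendsto_atTop]
  intro ε hε
  obtain ⟨N₀, h0⟩ := ((h x).1 (ε / (2 * (‖ρ‖ + 1))) (by positivity)).2
  refine ⟨max N₀ 1, fun N hN => ?_⟩
  have h1 := h0 N (le_trans (le_max_left _ _) hN) 0
  unfold twistedSum mu at h1
  have hN1 : (1 : ℝ) ≤ N := by exact_mod_cast le_trans (le_max_right _ _) hN
  simp only [Complex.ofReal_zero, mul_zero, Complex.exp_zero, mul_one] at h1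
  rw [dist_zero_right]
  have e : ∑ n ∈ Icc 1 N, ((ArithmeticFunction.moebius n : ℤ) : ℂ) * ρ ((α ^ n) x) =
      ρ (∑ n ∈ Icc 1 N, ((ArithmeticFunction.moebius n : ℤ) : ℂ) • (α ^ n) x) := by
    rw [map_sum]
    exact Finset.sum_congr rfl fun n _ => by rw [map_smul, smul_eq_mul]
  rw [e, norm_mul, norm_div, norm_one, Complex.norm_natCast]
  calc 1 / (N : ℝ) * ‖ρ (∑ n ∈ Icc 1 N, ((ArithmeticFunction.moebius n : ℤ) : ℂ) • (α ^ n) x)‖
      ≤ 1 / (N : ℝ) * (‖ρ‖ * (ε / (2 * (‖ρ‖ + 1)) * N)) := by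
        gcongr
        exact (ρ.le_opNorm _).trans (mul_le_mul_of_nonneg_left h1 (norm_nonneg _))
    _ = ε / 2 * (‖ρ‖ / (‖ρ‖ + 1)) := by field_simp
    _ ≤ ε / 2 * 1 := by
        gcongr
        rw [div_le_one (by positivity)]
        linarith
    _ < ε := by linarith

theorem partA {A : Type u} [NonUnitalCStarAlgebra A] (α : A ≃⋆ₐ[ℂ] A) : PartA α := by
  have h3 : Dense (Small α) → MobiusDisjoint α ∧ ∀ x, Disjoint' α x := fun hd =>
    ⟨mob_of fun x => nd_of_closure (hd x), fun x => nd_of_closure (hd x)⟩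
  have h0 : Tiny α ⊆ Small α := by
    rintro x ⟨K, hK, hx⟩
    exact ⟨K, ZeroDim.half hK, hx⟩
  refine ⟨⟨zeroA α, rfl⟩, ⟨halfA α, rfl, h0, fun x hx y hy => ⟨halfEl_mul hx hy, halfEl_mul' hx hy⟩,
    fun x hx => halfEl_star hx⟩, fun x hx => nd_of_closure hx, h3, fun S hS hd => h3 ?_⟩
  have h4 : NonUnitalStarAlgebra.adjoin ℂ S ≤ zeroA α := by
    rw [NonUnitalStarAlgebra.adjoin_le_iff]
    exact hS
  exact hd.mono fun x hx => h0 (h4 hx)

/-- (B) The bounds are uniform in the algebra, the automorphism, and the element of the unit ball of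
the spectral subspace of `K`; the elements may also change with the window. -/
theorem partB {K : Set UnitAddCircle} (hK : BelowHalf K) : LongBound.{u} K ∧ WindowBound.{u} K := by
  have hPW := PW_half hK (specEl_S K)
  constructor <;> intro ε hε
  on_goal 1 => obtain ⟨N0, h1⟩ := full_banach.{u} muf_le hPW hε
  on_goal 2 => obtain ⟨H0, h2⟩ := win_banach.{u} hPW hε
  on_goal 1 => refine ⟨N0, fun N hN A _ α x hx θ => ?_⟩
  on_goal 2 => refine ⟨H0, fun H hH N hN A _ α x hx θ => ?_⟩
  · rcases eq_or_ne x 0 with rfl | hx0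
    · simp [twistedSum]
    have hn : 0 < ‖x‖ := norm_pos_iff.2 hx0
    have h3 := h1 N hN A (fun n => ((‖x‖⁻¹ : ℝ) : ℂ) • orb α x n) (fun n => by
      rw [norm_smul, norm_orb, Complex.norm_real, norm_inv, norm_norm, inv_mul_cancel₀ hn.ne'])
      (specIn_smul hx _) (θ : UnitAddCircle)
    have e : twistedSum α mu θ (Icc 1 N) x = (‖x‖ : ℂ) • ∑ n ∈ Icc 1 N, (muf n * (fourier (n : ℤ) (θ : UnitAddCircle) : ℂ)) •
          (((‖x‖⁻¹ : ℝ) : ℂ) • orb α x n) := by
      unfold twistedSum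
      rw [smul_sum]
      refine sum_congr rfl fun m _ => ?_
      rw [exp_eq, smul_comm (‖x‖ : ℂ)]
      congr 1
      rw [smul_smul]
      have : (‖x‖ : ℂ) * ((‖x‖⁻¹ : ℝ) : ℂ) = 1 := by
        rw [← Complex.ofReal_mul, mul_inv_cancel₀ hn.ne', Complex.ofReal_one]
      rw [this, one_smul]
      rfl
    rw [e, norm_smul, Complex.norm_real, norm_norm, mul_comm]
    exact mul_le_mul_of_nonneg_right h3 hn.le
  · have h3 := h2 H hH N hN A (fun n => orb α (x n)) (fun n m => by rw [norm_orb]; exact (hx n).2)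
      (fun n => (hx n).1) (θ : UnitAddCircle)
    refine le_trans (le_of_eq ?_) h3
    refine sum_congr rfl fun n _ => ?_
    unfold twistedSum
    congr 1
    refine sum_congr rfl fun m _ => ?_
    rw [exp_eq]
    rfl

theorem below_of {B : Type v} [CStarAlgebra B] {w : unitary B} (hw : BelowQuarter w) :
    BelowHalf (uspec w + {θ | -θ ∈ uspec w}) := by
  obtain ⟨C, s, hs, h⟩ := hw
  have h1 : Cov (uspec w) C s := h
  exact ⟨_, _, by linarith, cov_add h1 (cov_neg h1)⟩

/-- (C) unitaries of spectral dimension less than one quarter -/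
theorem partC {B : Type v} [CStarAlgebra B] {w : unitary B} (hw : BelowQuarter w) :
    InnerBound w ∧ Implemented.{u, v} w := by
  have hK := below_of hw
  constructor
  · intro ε hε
    have hPW := PW_half hK (specEl_S _)
    obtain ⟨N0, h1⟩ := full_banach.{v} muf_le hPW hε
    refine ⟨N0, fun N hN x θ => ?_⟩
    rcases eq_or_ne x 0 with rfl | hx0
    · simp
    have hn : 0 < ‖x‖ := norm_pos_iff.2 hx0
    have h3 := h1 N hN B (fun n => ((‖x‖⁻¹ : ℝ) : ℂ) •
      (((w ^ n : unitary B) : B) * x * ((w ^ (-n) : unitary B) : B))) (fun n => by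
        rw [norm_smul, Complex.norm_real, norm_inv, norm_norm, inv_mul_le_iff₀ hn, mul_one]
        refine (norm_mul_le _ _).trans ?_
        calc _ ≤ ‖((w ^ n : unitary B) : B) * x‖ * 1 :=
              mul_le_mul_of_nonneg_left (norm_unitary_zpow w (-n)) (norm_nonneg _)
          _ ≤ 1 * ‖x‖ * 1 := by
              apply mul_le_mul_of_nonneg_right _ zero_le_one
              exact (norm_mul_le _ _).trans (mul_le_mul_of_nonneg_right (norm_unitary_zpow w n) (norm_nonneg _))
          _ = ‖x‖ := by ring)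
      (specIn_smul (specIn_uv w w x) _) (θ : UnitAddCircle)
    have e : ∑ n ∈ Icc 1 N, (((ArithmeticFunction.moebius n : ℤ) : ℂ) *
        Complex.exp (2 * Real.pi * Complex.I * n * θ)) • ((w : B) ^ n * x * star (w : B) ^ n) =
        (‖x‖ : ℂ) • ∑ n ∈ Icc 1 N, (muf n * (fourier (n : ℤ) (θ : UnitAddCircle) : ℂ)) •
          (((‖x‖⁻¹ : ℝ) : ℂ) • (((w ^ (n : ℤ) : unitary B) : B) * x * ((w ^ (-(n : ℤ)) : unitary B) : B))) := by
      rw [smul_sum]
      refine sum_congr rfl fun m _ => ?_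
      rw [exp_eq, smul_comm (‖x‖ : ℂ)]
      congr 1
      rw [smul_smul]
      have : (‖x‖ : ℂ) * ((‖x‖⁻¹ : ℝ) : ℂ) = 1 := by
        rw [← Complex.ofReal_mul, mul_inv_cancel₀ hn.ne', Complex.ofReal_one]
      rw [this, one_smul, zpow_neg, zpow_natCast]
      congr 1
      rw [← star_pow]
      rfl
    rw [e, norm_smul, Complex.norm_real, norm_norm, mul_comm]
    exact mul_le_mul_of_nonneg_right h3 hn.le
  · intro A _ α ι hι hα
    have hpow : ∀ n : ℕ, ∀ x, ι ((α ^ n) x) = (w : B) ^ n * ι x * star (w : B) ^ n := by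
      intro n
      induction n with
      | zero => intro x; simp
      | succ n ih =>
        intro x
        rw [pow_succ', pow_succ', pow_succ]
        show ι (α ((α ^ n) x)) = _
        rw [hα, ih]
        simp only [mul_assoc]
    have hzpow : ∀ (n : ℤ) (x : A), ι ((α ^ n) x) =
        ((w ^ n : unitary B) : B) * ι x * ((w ^ (-n) : unitary B) : B) := by
      intro n x
      rcases n with n | n
      · simp only [Int.ofNat_eq_natCast, zpow_natCast, zpow_neg]
        rw [hpow, ← star_pow]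
        rfl
      · simp only [zpow_negSucc]
        have h1 : ι ((α ^ (n + 1)) ((α ^ (n + 1))⁻¹ x)) = ι x := by
          congr 1
          show ((α ^ (n + 1)) * (α ^ (n + 1))⁻¹) x = x
          rw [mul_inv_cancel]
          rfl
        rw [hpow] at h1
        have h2 : star (w : B) ^ (n + 1) * (w : B) ^ (n + 1) = 1 := by
          rw [← star_pow]
          exact Unitary.star_mul_self_of_mem (pow_mem w.2 (n + 1))
        have h3 : ι ((α ^ (n + 1))⁻¹ x) = star (w : B) ^ (n + 1) * ι x * (w : B) ^ (n + 1) := by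
          rw [← h1]
          calc ι ((α ^ (n + 1))⁻¹ x) = 1 * ι ((α ^ (n + 1))⁻¹ x) * 1 := by rw [one_mul, mul_one]
            _ = _ := by rw [← h2]; simp only [mul_assoc]
        rw [h3]
        congr 1
        · congr 1
          rw [← star_pow]
          rfl
        · rw [Int.neg_negSucc, zpow_natCast]
          rfl
    have hall : ∀ x : A, x ∈ Small α := by
      intro x
      refine ⟨_, hK, ?_⟩
      intro f hf hU
      have h0 := specIn_uv w w (ι x) f hf hU
      have hs : Summable fun n : ℤ => f n • (α ^ n) x := by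
        apply Summable.of_norm
        refine Summable.of_nonneg_of_le (fun n => norm_nonneg _) (fun n => ?_) (hf.mul_right ‖x‖)
        rw [norm_smul]
        exact mul_le_mul_of_nonneg_left (norm_orb α x n).le (norm_nonneg _)
      apply hι
      rw [map_zero]
      have hc : Continuous ι := by
        have h5 : Isometry ι := AddMonoidHomClass.isometry_of_norm ι (fun y => NonUnitalStarAlgHom.norm_map ι hι y)
        exact h5.continuous
      rw [(hs.map_tsum ι hc), ← h0]
      refine tsum_congr fun n => ?_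
      rw [map_smul, hzpow]
    have hd : Dense (Small α) := fun x => subset_closure (hall x)
    exact ⟨Set.eq_univ_of_forall hall, (partA α).2.2.2.1 hd⟩

/-- **Möbius disjointness in norm for automorphisms with spectra of small dimension.** (A) concerns a
single automorphism; (B) the uniformity on spectral subspaces; (C) unitaries `w` whose spectrum has
upper box dimension less than one quarter. -/
theorem result :
    (∀ (A : Type u) [NonUnitalCStarAlgebra A] (α : A ≃⋆ₐ[ℂ] A), PartA α) ∧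
    (∀ K : Set UnitAddCircle, BelowHalf K → LongBound.{u} K ∧ WindowBound.{u} K) ∧
    ∀ (B : Type v) [CStarAlgebra B] (w : unitary B), BelowQuarter w → InnerBound w ∧ Implemented.{u, v} w :=
  ⟨fun _ _ α => partA α, fun _ hK => partB hK, fun _ _ _ hw => partC hw⟩

end Pool.Agent.Results.MP_7a8f48_an.HalfDimension
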