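import Pool.Agent.TH261.NP.Sys
import Pool.Agent.TH261.AB.Kron

set_option autoImplicit false

open Filter Topology

namespace Pool.Agent.Results.MP_7a8f48_an.NilpotentGroupAlgebras

/-- Möbius disjointness of a unital `*`-endomorphism `α`: for each `x`, the averages of
`μ(n) ρ(αⁿ x)` tend to zero for each bounded functional `ρ`, and the averages of `μ(n) π(αⁿ x) ξ`
tend to zero in norm for each representation `π` on a Hilbert space and each vector `ξ`. -/
def MobiusDisjoint {U : Type} [CStarAlgebra U] (α : U →⋆ₐ[ℂ] U) : Prop :=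
  ∀ x : U,
    (∀ ρ : U →L[ℂ] ℂ, Tendsto (fun N : ℕ => (1 / (N : ℂ)) *
      ∑ n ∈ Finset.Icc 1 N, ((ArithmeticFunction.moebius n : ℤ) : ℂ) * ρ ((α^[n]) x))
      atTop (𝓝 0)) ∧
    ∀ (K : Type) [NormedAddCommGroup K] [InnerProductSpace ℂ K] [CompleteSpace K]
      (π : U →⋆ₐ[ℂ] (K →L[ℂ] K)) (ξ : K), Tendsto (fun N : ℕ => (1 / (N : ℂ)) •
      ∑ n ∈ Finset.Icc 1 N, ((ArithmeticFunction.moebius n : ℤ) : ℂ) • π ((α^[n]) x) ξ)
      atTop (𝓝 0)

/-- `w` is an eigenvector of `β` with an eigenvalue of modulus one -/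
def Eigenvector {B : Type} [CStarAlgebra B] (β : B →⋆ₐ[ℂ] B) (w : B) : Prop :=
  ∃ l : ℂ, ‖l‖ = 1 ∧ β w = l • w

/-- the products `v * y * w` of the elements `y` of `Y` with eigenvectors `v`, `w` of `β` span a
dense subspace of `B` -/
def Generates {B : Type} [CStarAlgebra B] (β : B →⋆ₐ[ℂ] B) (Y : Set B) : Prop :=
  (Submodule.span ℂ {x : B | ∃ y ∈ Y, ∃ v w, Eigenvector β v ∧ Eigenvector β w ∧
    x = v * y * w}).topologicalClosure = ⊤

/-- `α` is Möbius disjoint, together with each system `(B, β)` which is generated over eigenvectors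
of `β` by an equivariant image of `(A, α)`, and together with each system `(W, γ)` which embeds in
such a `(B, β)`. With `B = A` this contains the restrictions of `α` to invariant C*-subalgebras. -/
def AllDisjoint {A : Type} [CStarAlgebra A] (α : A →⋆ₐ[ℂ] A) : Prop :=
  MobiusDisjoint α ∧
  ∀ (B : Type) [CStarAlgebra B] (β : B →⋆ₐ[ℂ] B) (ι : A →⋆ₐ[ℂ] B),
    (∀ a, β (ι a) = ι (α a)) → Generates β (Set.range ι) →
    MobiusDisjoint β ∧
    ∀ (W : Type) [CStarAlgebra W] (γ : W →⋆ₐ[ℂ] W) (κ : W →⋆ₐ[ℂ] B), Function.Injective κ →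
      (∀ w, κ (γ w) = β (κ w)) → MobiusDisjoint γ

/-- `z` is a central unitary -/
def CentralUnitary {A : Type} [CStarAlgebra A] (z : A) : Prop :=
  z ∈ unitary A ∧ ∀ a : A, z * a = a * z

/-- the `u g` are unitaries, and the identities `u (g * h) = u g * u h` and `α (u g) = u (σ g)` hold
up to central unitaries which are fixed by `α` -/
structure Covers {A G : Type} [CStarAlgebra A] [Group G] (u : G → A) (σ : G →* G)
    (α : A →⋆ₐ[ℂ] A) : Prop where
  unit : ∀ g, u g ∈ unitary A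
  mul : ∀ g h, ∃ z, CentralUnitary z ∧ α z = z ∧ u (g * h) = z * (u g * u h)
  cov : ∀ g, ∃ z, CentralUnitary z ∧ α z = z ∧ α (u g) = z * u (σ g)

/-- `σ` is tame at `g`: for some `m > 0` and `k` the `k`-th iterate of the map
`h ↦ h⁻¹ σᵐ(h)` maps `g` to `1`, and for `d = g⁻¹ σᵐ(g)` the unitaries `u (σⁿ(d))`, `n ≥ 0`, commute
with each other up to central unitaries -/
def TameAt {A G : Type} [CStarAlgebra A] [Group G] (u : G → A) (σ : G →* G) (g : G) : Prop :=
  ∃ m : ℕ, 0 < m ∧ (∃ k : ℕ, (fun h : G => h⁻¹ * (σ^[m]) h)^[k] g = 1) ∧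
    ∀ n l : ℕ, ∃ z, CentralUnitary z ∧
      u ((σ^[n]) (g⁻¹ * (σ^[m]) g)) * u ((σ^[l]) (g⁻¹ * (σ^[m]) g)) =
        z * (u ((σ^[l]) (g⁻¹ * (σ^[m]) g)) * u ((σ^[n]) (g⁻¹ * (σ^[m]) g)))

open Pool.Agent.TH261.AB Pool.Agent.TH261.NP

theorem mobiusDisjoint_of {U : Type} [CStarAlgebra U] {α : U →⋆ₐ[ℂ] U} (h : ∀ x, Good α x) :
    MobiusDisjoint α := fun x => ⟨(h x).fun, fun K _ _ _ π ξ => (h x).rep K π ξ⟩

/-- **Möbius disjointness for quasi-unipotent endomorphisms of nilpotent group algebras.**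

Let the unitaries `u g`, `g ∈ G`, of the unital C*-algebra `A` multiply like the elements of the
group `G`, up to central unitaries fixed by the endomorphism `α`, and let `α` cover the endomorphism
`σ` of `G` in the same sense. If `A` is generated over eigenvectors of `α` by the `u g` with `g` in
a set at whose elements `σ` is tame, then `α` is Möbius disjoint, and so is each system generated
by `α` over its eigenvectors, and each subsystem of such a system. -/
theorem result (A G : Type) [CStarAlgebra A] [Group G] (u : G → A) (σ : G →* G)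
    (α : A →⋆ₐ[ℂ] A) (hα : Covers u σ α) (S : Set G) (hS : ∀ g ∈ S, TameAt u σ g)
    (hgen : Generates α (u '' S)) : AllDisjoint α := by
  have htw : TwC α u := ⟨hα.unit, fun g h => by
    obtain ⟨z, hz, h1, h2⟩ := hα.mul g h
    exact ⟨z, ⟨hz, h1⟩, h2⟩⟩
  have hcov : ∀ g, ∃ z ∈ FC α, α (u g) = z * u (σ g) := by
    intro g
    obtain ⟨z, hz, h1, h2⟩ := hα.cov g
    exact ⟨z, ⟨hz, h1⟩, h2⟩
  have hQ : ∀ g ∈ S, QG σ u g := by
    intro g hg
    obtain ⟨m, hm, hk, hd⟩ := hS g hg
    exact ⟨m, hm, hk, hd⟩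
  have hg : ∀ (B : Type) [CStarAlgebra B] (β : B →⋆ₐ[ℂ] B) (ι : A →⋆ₐ[ℂ] B),
      (∀ a, β (ι a) = ι (α a)) → Generates β (Set.range ι) → ∀ x, Good β x := fun B _ β ι hι h =>
    good_all htw hcov hQ hgen β ι hι h
  refine ⟨?_, fun B _ β ι hι h => ?_⟩
  · refine mobiusDisjoint_of (hg A α (StarAlgHom.id ℂ A) (fun a => rfl) ?_)
    rw [Generates, eq_top_iff]
    intro a _
    exact Submodule.le_topologicalClosure _ (Submodule.subset_span ⟨a, ⟨a, rfl⟩, 1, 1,
      Eig.one α, Eig.one α, by rw [one_mul, mul_one]⟩)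
  · have h1 := hg B β ι hι h
    exact ⟨mobiusDisjoint_of h1, fun W _ γ κ hκ hγ => mobiusDisjoint_of (Good.embed h1 γ κ hκ hγ)⟩

/-- a set of elements whose span is dense generates -/
theorem generates_of_span {A : Type} [CStarAlgebra A] (α : A →⋆ₐ[ℂ] A) (Y : Set A)
    (h : (Submodule.span ℂ Y).topologicalClosure = ⊤) : Generates α Y := by
  rw [Generates, eq_top_iff, ← h]
  refine Submodule.topologicalClosure_mono (Submodule.span_mono fun y hy => ?_)
  exact ⟨y, hy, 1, 1, ⟨1, norm_one, by rw [map_one, one_smul]⟩,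
    ⟨1, norm_one, by rw [map_one, one_smul]⟩, by rw [one_mul, mul_one]⟩

/-- Group C*-algebras (in any completion): it is enough that for each `g` some iterate of
`h ↦ h⁻¹ σᵐ(h)` maps `g` to `1` and that the `σⁿ(g⁻¹ σᵐ(g))` commute modulo the centre of `G`. The
dynamics on the centre is not restricted. -/
theorem group_algebra (A G : Type) [CStarAlgebra A] [Group G] (u : G →* unitary A)
    (hd : (Submodule.span ℂ (Set.range fun g => (u g : A))).topologicalClosure = ⊤)
    (σ : G →* G) (hσ : ∀ g : G, ∃ m : ℕ, 0 < m ∧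
      (∃ k : ℕ, (fun h : G => h⁻¹ * (σ^[m]) h)^[k] g = 1) ∧
      ∀ n l : ℕ, (σ^[n]) (g⁻¹ * (σ^[m]) g) * (σ^[l]) (g⁻¹ * (σ^[m]) g) *
        ((σ^[n]) (g⁻¹ * (σ^[m]) g))⁻¹ * ((σ^[l]) (g⁻¹ * (σ^[m]) g))⁻¹ ∈ Subgroup.center G)
    (α : A →⋆ₐ[ℂ] A) (hα : ∀ g, α (u g) = u (σ g)) : AllDisjoint α := by
  have h1 : CentralUnitary (1 : A) := ⟨one_mem _, fun a => by rw [one_mul, mul_one]⟩
  have hz : ∀ c ∈ Subgroup.center G, CentralUnitary ((u c : unitary A) : A) := by
    intro c hc
    refine ⟨(u c).2, fun a => ?_⟩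
    have h2 : IsClosed {a : A | (u c : A) * a = a * (u c : A)} :=
      isClosed_eq (continuous_const.mul continuous_id) (continuous_id.mul continuous_const)
    have h3 : ∀ a ∈ Submodule.span ℂ (Set.range fun g => (u g : A)),
        (u c : A) * a = a * (u c : A) := by
      intro a ha
      induction ha using Submodule.span_induction with
      | mem x hx =>
        obtain ⟨g, rfl⟩ := hx
        show (u c : A) * (u g : A) = (u g : A) * (u c : A)
        rw [← Submonoid.coe_mul, ← Submonoid.coe_mul, ← map_mul, ← map_mul,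
          Subgroup.mem_center_iff.1 hc g]
      | zero => rw [mul_zero, zero_mul]
      | add x y _ _ hx hy => rw [mul_add, add_mul, hx, hy]
      | smul r x _ hx => rw [mul_smul_comm, smul_mul_assoc, hx]
    have h4 : a ∈ closure (Submodule.span ℂ (Set.range fun g => (u g : A)) : Set A) := by
      have : a ∈ (Submodule.span ℂ (Set.range fun g => (u g : A))).topologicalClosure := by
        rw [hd]; trivial
      exact this
    exact closure_minimal (fun a ha => h3 a ha) h2 h4
  refine result A G (fun g => (u g : A)) σ α ⟨fun g => (u g).2, fun g h => ⟨1, h1, map_one α, ?_⟩,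
    fun g => ⟨1, h1, map_one α, ?_⟩⟩ Set.univ (fun g _ => ?_) (generates_of_span α _ ?_)
  · rw [one_mul, ← Submonoid.coe_mul, map_mul]
  · rw [one_mul, hα]
  · obtain ⟨m, hm, hk, hc⟩ := hσ g
    refine ⟨m, hm, hk, fun n l => ⟨_, hz _ (hc n l), ?_⟩⟩
    simp only [← Submonoid.coe_mul, ← map_mul]
    congr 2
    group
  · rw [Set.image_univ]; exact hd

/-- Groups of class two, for example Heisenberg groups: all locally quasi-unipotent endomorphisms. -/
theorem class_two (A G : Type) [CStarAlgebra A] [Group G]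
    (h2 : ∀ x y : G, x * y * x⁻¹ * y⁻¹ ∈ Subgroup.center G) (u : G →* unitary A)
    (hd : (Submodule.span ℂ (Set.range fun g => (u g : A))).topologicalClosure = ⊤)
    (σ : G →* G) (hσ : ∀ g : G, ∃ m : ℕ, 0 < m ∧ ∃ k : ℕ, (fun h : G => h⁻¹ * (σ^[m]) h)^[k] g = 1)
    (α : A →⋆ₐ[ℂ] A) (hα : ∀ g, α (u g) = u (σ g)) : AllDisjoint α := by
  refine group_algebra A G u hd σ (fun g => ?_) α hα
  obtain ⟨m, hm, hk⟩ := hσ g
  exact ⟨m, hm, hk, fun n l => h2 _ _⟩

/-- Groups whose second derived group is central, for example nilpotent groups of class at most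
four: all locally quasi-unipotent endomorphisms with a power which is trivial modulo the derived
group. -/
theorem derived (A G : Type) [CStarAlgebra A] [Group G]
    (h2 : ⁅commutator G, commutator G⁆ ≤ Subgroup.center G) (u : G →* unitary A)
    (hd : (Submodule.span ℂ (Set.range fun g => (u g : A))).topologicalClosure = ⊤)
    (σ : G →* G) (hσ : ∀ g : G, ∃ m : ℕ, 0 < m ∧
      (∃ k : ℕ, (fun h : G => h⁻¹ * (σ^[m]) h)^[k] g = 1) ∧ g⁻¹ * (σ^[m]) g ∈ commutator G)
    (α : A →⋆ₐ[ℂ] A) (hα : ∀ g, α (u g) = u (σ g)) : AllDisjoint α := by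
  refine group_algebra A G u hd σ (fun g => ?_) α hα
  obtain ⟨m, hm, hk, hd⟩ := hσ g
  refine ⟨m, hm, hk, fun n l => ?_⟩
  have h3 : ∀ x ∈ commutator G, σ x ∈ commutator G := by
    intro x hx
    have h4 : (commutator G).map σ ≤ commutator G := by
      rw [commutator_def, Subgroup.map_commutator]
      exact Subgroup.commutator_mono le_top le_top
    exact h4 ⟨x, hx, rfl⟩
  have h5 : ∀ n : ℕ, (σ^[n]) (g⁻¹ * (σ^[m]) g) ∈ commutator G := by
    intro n
    induction n with
    | zero => exact hd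
    | succ n ih => rw [Function.iterate_succ_apply']; exact h3 _ ih
  exact h2 (Subgroup.commutator_mem_commutator (h5 n) (h5 l))

/-- Twisted group C*-algebras of abelian groups: all locally quasi-unipotent endomorphisms. The
cocycles may take values in the central unitaries fixed by `α` (bundles of noncommutative tori). -/
theorem twisted (A G : Type) [CStarAlgebra A] [CommGroup G] (u : G → A) (σ : G →* G)
    (α : A →⋆ₐ[ℂ] A) (hα : Covers u σ α) (hgen : Generates α (Set.range u))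
    (hσ : ∀ g : G, ∃ m : ℕ, 0 < m ∧ ∃ k : ℕ, (fun h : G => h⁻¹ * (σ^[m]) h)^[k] g = 1) :
    AllDisjoint α := by
  refine result A G u σ α hα Set.univ (fun g _ => ?_) (by rwa [Set.image_univ])
  obtain ⟨m, hm, hk⟩ := hσ g
  refine ⟨m, hm, hk, fun n l => ?_⟩
  generalize (σ^[n]) (g⁻¹ * (σ^[m]) g) = x
  generalize (σ^[l]) (g⁻¹ * (σ^[m]) g) = y
  obtain ⟨z, hz, -, h1⟩ := hα.mul x y
  obtain ⟨z', hz', -, h2⟩ := hα.mul y x
  rw [mul_comm x y, h2] at h1
  -- `z' * (u y * u x) = z * (u x * u y)`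
  refine ⟨star z * z', ⟨mul_mem (Unitary.star_mem hz.1) hz'.1, fun a => ?_⟩, ?_⟩
  · have h3 : star z * a = a * star z := by
      have := congrArg star (hz.2 (star a))
      rw [star_mul, star_mul, star_star] at this
      exact this.symm
    rw [mul_assoc, hz'.2, ← mul_assoc, h3, mul_assoc]
  · rw [mul_assoc, h1, ← mul_assoc, Unitary.star_mul_self_of_mem hz.1, one_mul]

/-- The case of the noncommutative tori: all endomorphisms which cover a matrix in `GL(d, ℤ)`
without eigenvalues of modulus greater than one. -/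
theorem torus (A : Type) [CStarAlgebra A] (d : ℕ) (u : Multiplicative (Fin d → ℤ) → A)
    (hu : ∀ g, u g ∈ unitary A) (hm : ∀ g h, ∃ c : ℂ, ‖c‖ = 1 ∧ u (g * h) = c • (u g * u h))
    (hd : (Submodule.span ℂ (Set.range u)).topologicalClosure = ⊤)
    (M : Matrix (Fin d) (Fin d) ℤ) (hM : IsUnit M)
    (hspec : ∀ z ∈ spectrum ℂ (M.map (Int.castRingHom ℂ)), ‖z‖ ≤ 1) (α : A →⋆ₐ[ℂ] A)
    (hα : ∀ v : Fin d → ℤ, ∃ c : ℂ, ‖c‖ = 1 ∧
      α (u (Multiplicative.ofAdd v)) = c • u (Multiplicative.ofAdd (M.mulVec v))) :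
    AllDisjoint α := by
  have hc : ∀ c : ℂ, ‖c‖ = 1 → CentralUnitary (c • (1 : A)) ∧ α (c • (1 : A)) = c • (1 : A) := by
    intro c hc
    have h1 : star c * c = 1 := by
      rw [Complex.star_def, Complex.conj_mul', hc]; simp
    refine ⟨⟨?_, fun a => by rw [smul_mul_assoc, mul_smul_comm, one_mul, mul_one]⟩,
      by rw [map_smul, map_one]⟩
    rw [Unitary.mem_iff]
    constructor
    · rw [star_smul, star_one, smul_mul_smul_comm, one_mul, h1, one_smul]
    · rw [star_smul, star_one, smul_mul_smul_comm, one_mul, mul_comm, h1, one_smul]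
  refine twisted A _ u (AddMonoidHom.toMultiplicative M.mulVecLin.toAddMonoidHom) α ⟨hu, ?_, ?_⟩
    (generates_of_span α _ hd) ?_
  · intro g h
    obtain ⟨c, hc1, h1⟩ := hm g h
    exact ⟨c • 1, (hc c hc1).1, (hc c hc1).2, by rw [h1, smul_mul_assoc, one_mul]⟩
  · intro g
    obtain ⟨c, hc1, h1⟩ := hα g.toAdd
    exact ⟨c • 1, (hc c hc1).1, (hc c hc1).2, by rw [smul_mul_assoc, one_mul]; exact h1⟩
  obtain ⟨m, hm, k, hk⟩ := quasi_unipotent M hM hspec
  intro g
  refine ⟨m, hm, k, ?_⟩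
  have h1 : ∀ (n : ℕ) (v : Multiplicative (Fin d → ℤ)),
      ((AddMonoidHom.toMultiplicative M.mulVecLin.toAddMonoidHom)^[n]) v =
        Multiplicative.ofAdd ((M ^ n).mulVec v.toAdd) := by
    intro n
    induction n with
    | zero => intro v; simp
    | succ n ih =>
      intro v
      rw [Function.iterate_succ_apply, ih, pow_succ, ← Matrix.mulVec_mulVec]
      rfl
  have h2 : ∀ (n : ℕ) (v : Multiplicative (Fin d → ℤ)),
      (fun h : Multiplicative (Fin d → ℤ) => h⁻¹ *
        ((AddMonoidHom.toMultiplicative M.mulVecLin.toAddMonoidHom)^[m]) h)^[n] v =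
        Multiplicative.ofAdd (((M ^ m - 1) ^ n).mulVec v.toAdd) := by
    intro n
    induction n with
    | zero => intro v; simp
    | succ n ih =>
      intro v
      rw [Function.iterate_succ_apply, ih, pow_succ, ← Matrix.mulVec_mulVec, h1]
      congr 2
      rw [Matrix.sub_mulVec, Matrix.one_mulVec, sub_eq_neg_add]
      rfl
  rw [h2, hk, Matrix.zero_mulVec]
  rfl

end Pool.Agent.Results.MP_7a8f48_an.NilpotentGroupAlgebras
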