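import Pool.Agent.TH327.Thin.Unit

/-! Möbius disjointness of automorphisms of C*-algebras with thin spectrum. -/

set_option autoImplicit false

open Filter Topology Finset

namespace Pool.Agent.Results.MP_7a8f48_an.ThinSpectrum

universe u v w

/-- The subset `K` of the circle `ℝ/ℤ` is thin: for some `C, D` and each `N ≥ 2` it is covered by
at most `C (log N) ^ D` arcs of radius `1 / N`. -/
def Thin (K : Set UnitAddCircle) : Prop :=
  ∃ C D : ℕ, ∀ N : ℕ, 2 ≤ N → ∃ S : Finset UnitAddCircle, (S.card : ℝ) ≤ C * Real.log N ^ D ∧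
    ∀ ζ ∈ K, ∃ s ∈ S, ‖ζ - s‖ ≤ 1 / N

/-- The sequence `a` has its spectrum in `K`: it is annihilated by each absolutely summable
`f : ℤ → ℂ` whose Fourier series `∑ f n exp (2 π i n η)` vanishes for all `η` in an open set
which contains `K` (`fourier n η` is `exp (2 π i n η)`). -/
def SpectrumIn {E : Type*} [NormedAddCommGroup E] [NormedSpace ℂ E] (K : Set UnitAddCircle)
    (a : ℤ → E) : Prop :=
  ∀ f : ℤ → ℂ, Summable (fun n => ‖f n‖) →
    (∃ U : Set UnitAddCircle, IsOpen U ∧ K ⊆ U ∧ ∀ η ∈ U, ∑' n, f n * fourier n η = 0) →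
    ∑' n, f n • a n = 0

/-- The element `x` has a thin Arveson spectrum with respect to the automorphism `α`. -/
def HasThinSpectrum {A : Type u} [NonUnitalCStarAlgebra A] (α : A ≃⋆ₐ[ℂ] A) (x : A) : Prop :=
  ∃ K, Thin K ∧ SpectrumIn K (fun n : ℤ => (α ^ n) x)

/-- the unitary `v` has a thin spectrum -/
def ThinUnitary {B : Type v} [CStarAlgebra B] (v : unitary B) : Prop :=
  Thin {θ : UnitAddCircle | (fourier 1 θ : ℂ) ∈ spectrum ℂ (v : B)}

/-- Möbius disjointness of the automorphism `α`: for each `x` the averages of `μ(n) e(nθ) αⁿ(x)`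
tend to zero in norm, uniformly in `θ`, and those of `μ(n) ρ(αⁿ(x))` tend to zero for each bounded
functional `ρ`, in particular for each state. -/
def MobiusDisjoint {A : Type u} [NonUnitalCStarAlgebra A] (α : A ≃⋆ₐ[ℂ] A) : Prop :=
  ∀ x : A,
    (∀ ε : ℝ, 0 < ε → ∃ N₀ : ℕ, ∀ N ≥ N₀, ∀ θ : ℝ,
      ‖∑ n ∈ Icc 1 N, (((ArithmeticFunction.moebius n : ℤ) : ℂ) *
        Complex.exp (2 * Real.pi * Complex.I * n * θ)) • (α ^ n) x‖ ≤ ε * N) ∧
    ∀ ρ : A →L[ℂ] ℂ, Tendsto (fun N : ℕ => (1 / (N : ℂ)) *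
      ∑ n ∈ Icc 1 N, ((ArithmeticFunction.moebius n : ℤ) : ℂ) * ρ ((α ^ n) x)) atTop (𝓝 0)

/-- each power of the logarithm is saved in norm for the orbit of `x`, uniformly in the twist -/
def LogRate {A : Type u} [NonUnitalCStarAlgebra A] (α : A ≃⋆ₐ[ℂ] A) (x : A) : Prop :=
  ∀ U : ℕ, ∃ C : ℝ, ∀ N : ℕ, 2 ≤ N → ∀ θ : ℝ,
    ‖∑ n ∈ Icc 1 N, (((ArithmeticFunction.moebius n : ℤ) : ℂ) *
      Complex.exp (2 * Real.pi * Complex.I * n * θ)) • (α ^ n) x‖ ≤ C * (N / Real.log N ^ U)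

open Pool.Agent.TH327.Thin in
theorem disjoint_of {A : Type u} [NonUnitalCStarAlgebra A] (α : A ≃⋆ₐ[ℂ] A)
    (h : ∀ x : A, ∀ ε : ℝ, 0 < ε → ∃ N₀ : ℕ, ∀ N ≥ N₀, ∀ θ : ℝ,
      ‖∑ n ∈ Icc 1 N, (((ArithmeticFunction.moebius n : ℤ) : ℂ) *
        Complex.exp (2 * Real.pi * Complex.I * n * θ)) • (α ^ n) x‖ ≤ ε * N) :
    MobiusDisjoint α := by
  intro x
  refine ⟨h x, fun ρ => ?_⟩
  rw [Metric.tendsto_atTop]
  intro ε hε
  obtain ⟨N₀, h0⟩ := h x (ε / (2 * (‖ρ‖ + 1))) (by positivity)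
  refine ⟨max N₀ 1, fun N hN => ?_⟩
  have h1 := h0 N (le_trans (le_max_left _ _) hN) 0
  have hN1 : (1 : ℝ) ≤ N := by exact_mod_cast le_trans (le_max_right _ _) hN
  simp only [Complex.ofReal_zero, mul_zero, Complex.exp_zero, mul_one] at h1
  rw [dist_zero_right]
  have e : ∑ n ∈ Icc 1 N, ((ArithmeticFunction.moebius n : ℤ) : ℂ) * ρ ((α ^ n) x) =
      ρ (∑ n ∈ Icc 1 N, ((ArithmeticFunction.moebius n : ℤ) : ℂ) • (α ^ n) x) := by
    rw [map_sum]
    exact Finset.sum_congr rfl fun n _ => by rw [map_smul, smul_eq_mul]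
  rw [e, norm_mul, norm_div, norm_one, Complex.norm_natCast]
  calc 1 / (N : ℝ) * ‖ρ (∑ n ∈ Icc 1 N, ((ArithmeticFunction.moebius n : ℤ) : ℂ) • (α ^ n) x)‖
      ≤ 1 / (N : ℝ) * (‖ρ‖ * (ε / (2 * (‖ρ‖ + 1)) * N)) := by
        gcongr
        exact (ρ.le_opNorm _).trans (mul_le_mul_of_nonneg_left h1 (norm_nonneg _))
    _ = ε / 2 * (‖ρ‖ / (‖ρ‖ + 1)) := by field_simp
    _ ≤ ε / 2 * 1 := by
        gcongr
        rw [div_le_one (by positivity)]
        linarith
    _ < ε := by linarith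

theorem exp_eq (n : ℕ) (θ : ℝ) : Complex.exp (2 * Real.pi * Complex.I * n * θ) =
    fourier (n : ℤ) (θ : UnitAddCircle) := by
  rw [Pool.Agent.TH327.Thin.fourier_coe]
  simp

/-- **Möbius disjointness for thin spectrum.** Let `α` be an automorphism of a C*-algebra `A`
(unital or not) and `S` a set of elements whose Arveson spectrum is thin. Each element of the
*-algebra generated by `S` satisfies the averaging bounds in norm with every power of the logarithm
saved, and if `S` generates `A` then `α` is Möbius disjoint. -/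
theorem result (A : Type u) [NonUnitalCStarAlgebra A] (α : A ≃⋆ₐ[ℂ] A) (S : Set A)
    (hS : ∀ x ∈ S, HasThinSpectrum α x) :
    (∀ x ∈ NonUnitalStarAlgebra.adjoin ℂ S, LogRate α x) ∧
    (Dense ((NonUnitalStarAlgebra.adjoin ℂ S : NonUnitalStarSubalgebra ℂ A) : Set A) →
      MobiusDisjoint α) := by
  have hS' : ∀ x ∈ S, ∃ K : Set UnitAddCircle, Pool.Agent.TH327.Thin.Thin K ∧
      Pool.Agent.TH327.Thin.SpecIn K (Pool.Agent.TH327.Thin.orb α x) := hS
  refine ⟨fun x hx U => ?_, fun hd => disjoint_of α fun x ε hε => ?_⟩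
  · obtain ⟨C, hC⟩ := Pool.Agent.TH327.Thin.mob_of_adjoin α hS' hx
    refine ⟨C U, fun N hN θ => ?_⟩
    have := hC U N hN N le_rfl (θ : UnitAddCircle)
    simp_rw [exp_eq]
    exact this
  · obtain ⟨N₀, h0⟩ := Pool.Agent.TH327.Thin.disj_of_dense α hS' hd x hε
    refine ⟨N₀, fun N hN θ => ?_⟩
    have := h0 N hN (θ : UnitAddCircle)
    simp_rw [exp_eq]
    exact this

/-! ### Two classes of examples (not part of `result`) -/

/-- each power of the logarithm is saved for the inner automorphism of `v`, with a constant which is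
proportional to `‖x‖` -/
def UniformLogRate {B : Type v} [CStarAlgebra B] (v : unitary B) : Prop :=
  ∀ U : ℕ, ∃ C : ℝ, ∀ (x : B) (N : ℕ), 2 ≤ N → ∀ θ : ℝ,
    ‖∑ n ∈ Icc 1 N, (((ArithmeticFunction.moebius n : ℤ) : ℂ) *
      Complex.exp (2 * Real.pi * Complex.I * n * θ)) • ((v : B) ^ n * x * star (v : B) ^ n)‖ ≤
    C * ‖x‖ * (N / Real.log N ^ U)

/-- Let `v` be a unitary with thin spectrum in a unital C*-algebra `B`. Every power of the logarithm
is saved for its inner automorphism, and each automorphism of a C*-algebra `A` which becomes the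
inner automorphism of `v` in an embedding of `A` in `B` is Möbius disjoint. -/
def ImplementedCase : Prop :=
  ∀ (B : Type v) [CStarAlgebra B] (v : unitary B), ThinUnitary v → UniformLogRate v ∧
    ∀ (A : Type u) [NonUnitalCStarAlgebra A] (α : A ≃⋆ₐ[ℂ] A) (ι : A →⋆ₙₐ[ℂ] B),
      Function.Injective ι → (∀ x, ι (α x) = (v : B) * ι x * star (v : B)) →
      MobiusDisjoint α

/-- Let `V` be a unitary with thin spectrum on a Hilbert space `H`, and `s : H → A` a bounded
linear map whose image generates `A`. Each automorphism `α` with `α (s ξ) = s (V ξ)` is Möbius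
disjoint. -/
def QuantizedCase : Prop :=
  ∀ (A : Type u) [NonUnitalCStarAlgebra A] (α : A ≃⋆ₐ[ℂ] A) (H : Type w)
    [NormedAddCommGroup H] [InnerProductSpace ℂ H] [CompleteSpace H]
    (V : unitary (H →L[ℂ] H)) (s : H →L[ℂ] A), ThinUnitary V →
    (∀ ξ : H, α (s ξ) = s ((V : H →L[ℂ] H) ξ)) →
    Dense ((NonUnitalStarAlgebra.adjoin ℂ (Set.range s) : NonUnitalStarSubalgebra ℂ A) : Set A) →
    MobiusDisjoint α

theorem implementedCase : ImplementedCase.{u, v} := by
  intro B _ v hv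
  have hB : UniformLogRate v := by
    intro U
    obtain ⟨C, hC⟩ := Pool.Agent.TH327.Thin.inner_bound v v hv hv U
    refine ⟨C, fun x N hN θ => ?_⟩
    have := hC x N hN (θ : UnitAddCircle)
    simp_rw [exp_eq]
    exact this
  refine ⟨hB, fun A _ α ι hι hα => disjoint_of α fun x ε hε => ?_⟩
  obtain ⟨C, hC⟩ := hB 1
  have hpow : ∀ n : ℕ, ι ((α ^ n) x) = (v : B) ^ n * ι x * star (v : B) ^ n := by
    intro n
    induction n with
    | zero => simp
    | succ n ih =>
      rw [pow_succ', pow_succ', pow_succ]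
      show ι (α ((α ^ n) x)) = _
      rw [hα, ih]
      simp only [mul_assoc]
  have hlim : Tendsto (fun N : ℕ => C * ‖ι x‖ / Real.log N ^ 1) atTop (𝓝 0) := by
    simp only [pow_one]
    exact Tendsto.div_atTop tendsto_const_nhds
      (Real.tendsto_log_atTop.comp tendsto_natCast_atTop_atTop)
  obtain ⟨N1, h1⟩ := eventually_atTop.1 (hlim.eventually (gt_mem_nhds hε))
  refine ⟨max N1 2, fun N hN θ => ?_⟩
  have hN1 : N1 ≤ N := le_trans (le_max_left _ _) hN
  have hN2 : 2 ≤ N := le_trans (le_max_right _ _) hN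
  rw [← NonUnitalStarAlgHom.norm_map ι hι, map_sum]
  simp_rw [map_smul, hpow]
  refine (hC (ι x) N hN2 θ).trans ?_
  calc C * ‖ι x‖ * (N / Real.log N ^ 1) = C * ‖ι x‖ / Real.log N ^ 1 * N := by ring
    _ ≤ ε * N := mul_le_mul_of_nonneg_right (h1 N hN1).le (Nat.cast_nonneg _)

theorem quantizedCase : QuantizedCase.{u, w} := by
  intro A _ α H _ _ _ V s hV hα hd
  refine (result A α (Set.range s) ?_).2 hd
  rintro _ ⟨ξ, rfl⟩
  refine ⟨_, hV, ?_⟩
  have hpow : ∀ n : ℕ, ∀ η : H, (α ^ n) (s η) = s (((V ^ n : unitary (H →L[ℂ] H)) : H →L[ℂ] H) η) := by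
    intro n
    induction n with
    | zero => intro η; simp
    | succ n ih =>
      intro η
      rw [pow_succ', pow_succ']
      show α ((α ^ n) (s η)) = _
      rw [ih, hα]
      rfl
  have hzpow : ∀ n : ℤ, (α ^ n) (s ξ) = s (((V ^ n : unitary (H →L[ℂ] H)) : H →L[ℂ] H) ξ) := by
    intro n
    rcases n with n | n
    · simp only [Int.ofNat_eq_natCast, zpow_natCast]
      exact hpow n ξ
    · simp only [zpow_negSucc]
      apply (α ^ (n + 1)).injective
      show (α ^ (n + 1)) ((α ^ (n + 1))⁻¹ (s ξ)) =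
        (α ^ (n + 1)) (s ((((V ^ (n + 1))⁻¹ : unitary (H →L[ℂ] H)) : H →L[ℂ] H) ξ))
      rw [hpow]
      have h1 : (α ^ (n + 1)) ((α ^ (n + 1))⁻¹ (s ξ)) = s ξ := by
        show ((α ^ (n + 1)) * (α ^ (n + 1))⁻¹) (s ξ) = s ξ
        rw [mul_inv_cancel]
        rfl
      rw [h1]
      congr 1
      have h2 : (((V ^ (n + 1) : unitary (H →L[ℂ] H)) : H →L[ℂ] H) *
          (((V ^ (n + 1))⁻¹ : unitary (H →L[ℂ] H)) : H →L[ℂ] H)) = 1 := by
        rw [← Submonoid.coe_mul, mul_inv_cancel]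
        rfl
      exact (congrFun (congrArg DFunLike.coe h2) ξ).symm
  intro f hf hU
  have h0 := Pool.Agent.TH327.Thin.specIn_unitary V f hf hU
  have hs : Summable fun n : ℤ => f n • ((V ^ n : unitary (H →L[ℂ] H)) : H →L[ℂ] H) := by
    refine Summable.of_norm_bounded hf fun n => ?_
    rw [norm_smul]
    exact mul_le_of_le_one_right (norm_nonneg _) (Pool.Agent.TH327.Thin.norm_unitary_zpow V n)
  have h1 := (s.comp (ContinuousLinearMap.apply ℂ H ξ)).map_tsum hs
  rw [h0, map_zero] at h1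
  rw [h1]
  refine tsum_congr fun n => ?_
  show f n • (α ^ n) (s ξ) = _
  rw [hzpow n, map_smul]
  rfl

end Pool.Agent.Results.MP_7a8f48_an.ThinSpectrum
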